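import Pool.Agent.S71.UQ.Core

/-!
# Maps from `C([0,1]^n)` into simple C*-algebras with the same trace

Let `A` be a unital simple C*-algebra of stable rank one with strict comparison whose only
2-quasitracial state is a trace `τ`. Then any two injective unital homomorphisms
`φ, ψ : C([0,1]^n) → A` with `τ ∘ φ = τ ∘ ψ` are approximately unitarily equivalent.

Idea.  Let `μ` be the measure of `τ ∘ φ = τ ∘ ψ`; it has full support.

1. Cut the cube into small cells up to a set of small measure. By comparison the cells of `φ` are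
   below those of `ψ`, and stable rank one gives a unitary `w` with `w ψ w* ≈ φ` on `φ(k)`, where
   `k` is `1` off a set of small measure.
2. Let `K = φ(k)`, `c` a function of `K` supported where `k < 1`. By comparison there are
   orthogonal elements `y_j` with `y_j* y_j = c²` under small bumps of `φ` around prescribed points.
   Combined with partitions of unity in `φ` (or `w ψ w*`) and `K` they give blocks `R_i` with
   `R_i* R_i = c²` which intertwine `φ` with the maps `f ↦ f((1 - t σ) φ)`, `f ↦ f((1 - t σ) w ψ w*)`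
   (`σ` a cutoff of `K`).
3. These connect `φ` and `w ψ w*` by a path on the corner, and a zigzag argument gives a unitary
   which conjugates one to the other up to a small error.
-/

set_option autoImplicit false

open Filter Topology MeasureTheory
open scoped ComplexOrder

noncomputable section

namespace Pool.Agent.Results.MP_401a3a_an.GeneralTargets

/-- positive elements -/
def IsPos {A : Type} [CStarAlgebra A] (a : A) : Prop := ∃ y : A, a = star y * y

/-- `t` is a quasitrace: `0 ≤ t (x* x) = t (x x*)`, `t (a + i b) = t a + i t b` for self-adjoint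
`a, b`, and `t` is linear on commutative C*-subalgebras. -/
structure IsQuasitrace {A : Type} [CStarAlgebra A] (t : A → ℂ) : Prop where
  nonneg : ∀ x, 0 ≤ t (star x * x)
  tracial : ∀ x, t (star x * x) = t (x * star x)
  re_im : ∀ a b, star a = a → star b = b → t (a + Complex.I • b) = t a + Complex.I * t b
  add : ∀ S : StarSubalgebra ℂ A, IsClosed (S : Set A) → (∀ x ∈ S, ∀ y ∈ S, x * y = y * x) →
    ∀ x ∈ S, ∀ y ∈ S, t (x + y) = t x + t y
  smul : ∀ S : StarSubalgebra ℂ A, IsClosed (S : Set A) → (∀ x ∈ S, ∀ y ∈ S, x * y = y * x) →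
    ∀ (c : ℂ), ∀ x ∈ S, t (c • x) = c * t x

/-- `d` is the rank `d_t(a) = lim_k t (a ^ (1/k))` of the positive element `a`. -/
def HasRank {A : Type} [CStarAlgebra A] (t : A → ℂ) (a : A) (d : ℝ) : Prop :=
  Tendsto (fun k : ℕ => (t (cfc (fun s : ℝ => s ^ (1 / ((k : ℝ) + 1))) a)).re) atTop (𝓝 d)

/-- Cuntz subequivalence `a ≾ b`. -/
def CuntzLE {A : Type} [CStarAlgebra A] (a b : A) : Prop :=
  ∀ ε : ℝ, 0 < ε → ∃ v : A, ‖v * b * star v - a‖ < ε

section

variable {A : Type} [CStarAlgebra A] [PartialOrder A] [StarOrderedRing A]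

/-- `m + 1` by `m + 1` matrices over `A` -/
abbrev Mat (A : Type) (m : ℕ) : Type := CStarMatrix (Fin (m + 1)) (Fin (m + 1)) A

/-- the matrix `x ⊗ e₁₁` with the upper left entry `x` -/
def corner (m : ℕ) (x : A) : Mat A m :=
  CStarMatrix.ofMatrix (Matrix.single 0 0 x)

/-- `t` is a 2-quasitracial state: a quasitrace with `t 1 = 1` which extends to a quasitrace on the
2 by 2 matrices. -/
structure IsTwoQuasitracialState (t : A → ℂ) : Prop where
  one : t 1 = 1
  quasi : IsQuasitrace t
  two : ∃ T : Mat A 1 → ℂ, IsQuasitrace T ∧ ∀ x, T (corner 1 x) = t x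

variable (A)

/-- Strict comparison: for positive elements `a, b` of a matrix algebra over `A`, if
`d_t(a) < d_t(b)` for all 2-quasitracial states `t` (extended to the matrix algebra), then
`a ≾ b`. -/
def StrictComparison : Prop :=
  ∀ (m : ℕ) (a b : Mat A m), IsPos a → IsPos b →
    (∀ t : A → ℂ, IsTwoQuasitracialState t → ∀ T : Mat A m → ℂ, IsQuasitrace T →
      (∀ x, T (corner m x) = t x) → ∃ r s : ℝ, HasRank T a r ∧ HasRank T b s ∧ r < s) →
    CuntzLE a b

omit [PartialOrder A] [StarOrderedRing A] in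
/-- The only closed two-sided ideals are `0` and `A`. -/
def IsSimpleCStar : Prop := ∀ I : TwoSidedIdeal A, IsClosed (I : Set A) → I = ⊥ ∨ I = ⊤

omit [PartialOrder A] [StarOrderedRing A] in
/-- The invertible elements are dense. -/
def StableRankOne : Prop := Dense {x : A | IsUnit x}

end

/-- `t` is a tracial state. -/
structure IsTracialState {A : Type} [CStarAlgebra A] (t : A →ₗ[ℂ] ℂ) : Prop where
  one : t 1 = 1
  comm : ∀ x y, t (x * y) = t (y * x)
  pos : ∀ x, 0 ≤ t (star x * x)

/-- `φ` and `ψ` are approximately unitarily equivalent. -/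
def ApproxUnitarilyEquivalent {B A : Type} [CStarAlgebra B] [CStarAlgebra A]
    (φ ψ : B →⋆ₐ[ℂ] A) : Prop :=
  ∀ (F : Finset B) (ε : ℝ), 0 < ε → ∃ u : unitary A, ∀ b ∈ F,
    ‖(u : A) * φ b * star (u : A) - ψ b‖ < ε

open Pool.Agent.S71.UQ Pool.Agent.N300.UN

section faithful

variable {A : Type} [CStarAlgebra A] [PartialOrder A] [StarOrderedRing A]

theorem tr_nonneg {τ : A →ₗ[ℂ] ℂ} (hτ : IsTracialState τ) {x : A} (hx : 0 ≤ x) : 0 ≤ τ x := by
  obtain ⟨y, rfl⟩ := CStarAlgebra.nonneg_iff_eq_star_mul_self.1 hx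
  exact hτ.pos y

theorem tr_mono {τ : A →ₗ[ℂ] ℂ} (hτ : IsTracialState τ) {x y : A} (hxy : x ≤ y) : τ x ≤ τ y := by
  have := tr_nonneg hτ (sub_nonneg.2 hxy)
  rwa [map_sub, sub_nonneg] at this

theorem tr_cont {τ : A →ₗ[ℂ] ℂ} (hτ : IsTracialState τ) : Continuous τ := by
  let f : A →ₚ[ℂ] ℂ := PositiveLinearMap.mk₀ τ fun x hx => tr_nonneg hτ hx
  have : Continuous f := map_continuous f
  exact this

theorem tr_zero {τ : A →ₗ[ℂ] ℂ} (hτ : IsTracialState τ) {x y : A} (hx : 0 ≤ x) (hxy : x ≤ y)
    (hy : τ y = 0) : τ x = 0 :=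
  le_antisymm (by rw [← hy]; exact tr_mono hτ hxy) (tr_nonneg hτ hx)

theorem faithful {τ : A →ₗ[ℂ] ℂ} (hτ : IsTracialState τ) (hs : IsSimpleCStar A) (x : A)
    (hx : τ (star x * x) = 0) : x = 0 := by
  let I : TwoSidedIdeal A := TwoSidedIdeal.mk' {x | τ (star x * x) = 0}
    (by simp)
    (by
      intro x y hx hy
      change τ (star (x + y) * (x + y)) = 0
      change τ (star x * x) = 0 at hx
      change τ (star y * y) = 0 at hy
      refine tr_zero hτ (star_mul_self_nonneg _) (y := (2 : ℂ) • (star x * x) +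
        (2 : ℂ) • (star y * y)) ?_ (by rw [map_add, map_smul, map_smul, hx, hy]; simp)
      have h1 : (2 : ℂ) • (star x * x) + (2 : ℂ) • (star y * y) - star (x + y) * (x + y) =
          star (x - y) * (x - y) := by
        rw [star_add, star_sub, two_smul, two_smul]
        noncomm_ring
      rw [← sub_nonneg, h1]
      exact star_mul_self_nonneg _)
    (by
      intro x hx
      change τ (star (-x) * (-x)) = 0
      rw [star_neg, neg_mul_neg]
      exact hx)
    (by
      intro a x hx
      change τ (star (a * x) * (a * x)) = 0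
      change τ (star x * x) = 0 at hx
      have h1 : star (a * x) * (a * x) = star x * (star a * a) * x := by
        rw [star_mul]; simp only [mul_assoc]
      rw [h1]
      refine tr_zero hτ ?_ (CStarAlgebra.star_left_conjugate_le_norm_smul
        (IsSelfAdjoint.star_mul_self a)) ?_
      · rw [← h1]; exact star_mul_self_nonneg _
      · rw [← Complex.coe_smul, map_smul, hx, smul_zero])
    (by
      intro x a hx
      change τ (star (x * a) * (x * a)) = 0
      change τ (star x * x) = 0 at hx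
      have h1 : τ (star (x * a) * (x * a)) = τ (x * (a * star a) * star x) := by
        rw [hτ.comm, star_mul]; simp only [mul_assoc]
      rw [h1]
      refine tr_zero hτ ?_ (CStarAlgebra.star_right_conjugate_le_norm_smul
        (IsSelfAdjoint.mul_star_self a)) ?_
      · have h2 : x * (a * star a) * star x = (x * a) * star (x * a) := by
          rw [star_mul]; simp only [mul_assoc]
        rw [h2]; exact mul_star_self_nonneg _
      · rw [← Complex.coe_smul, map_smul, hτ.comm, hx, smul_zero])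
  have hI : ∀ x, x ∈ I ↔ τ (star x * x) = 0 := fun x => by
    simp [I, TwoSidedIdeal.mem_mk']
  have hcl : IsClosed (I : Set A) := by
    have h1 : (I : Set A) = {x | τ (star x * x) = 0} := by
      ext x; exact hI x
    rw [h1]
    refine isClosed_eq ?_ continuous_const
    exact (tr_cont hτ).comp (by fun_prop)
  rcases hs I hcl with h | h
  · have h1 : x ∈ I := (hI x).2 hx
    rw [h] at h1
    exact (TwoSidedIdeal.mem_bot A).1 h1
  · exfalso
    have h1 : (1 : A) ∈ I := by rw [h]; exact TwoSidedIdeal.mem_top A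
    rw [hI, star_one, one_mul, hτ.one] at h1
    exact one_ne_zero h1

end faithful

section comparison

variable {A : Type} [CStarAlgebra A] [PartialOrder A] [StarOrderedRing A]

/-- the map `A → M_1(A)` -/
def ob (A : Type) [CStarAlgebra A] [PartialOrder A] [StarOrderedRing A] : A →⋆ₐ[ℂ] Mat A 0 where
  toFun x := CStarMatrix.ofMatrix (Matrix.of fun _ _ => x)
  map_one' := by
    ext i j
    obtain rfl := Fin.eq_zero i
    obtain rfl := Fin.eq_zero j
    rfl
  map_mul' x y := by
    ext i j
    refine Eq.trans ?_ (CStarMatrix.mul_apply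
      (M := CStarMatrix.ofMatrix (Matrix.of fun (_ _ : Fin 1) => x))
      (N := CStarMatrix.ofMatrix (Matrix.of fun (_ _ : Fin 1) => y)) (i := i) (k := j)).symm
    exact (Fin.sum_univ_one (fun _ => x * y)).symm
  map_zero' := rfl
  map_add' _ _ := rfl
  commutes' r := by
    ext i j
    obtain rfl := Fin.eq_zero i
    obtain rfl := Fin.eq_zero j
    exact (CStarMatrix.algebraMap_apply (n := Fin 1) (i := 0) (j := 0)).symm
  map_star' x := rfl

/-- the map `M_1(A) → A` -/
def bo (A : Type) [CStarAlgebra A] [PartialOrder A] [StarOrderedRing A] : Mat A 0 →⋆ₐ[ℂ] A where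
  toFun M := M 0 0
  map_one' := rfl
  map_mul' x y := by
    rw [CStarMatrix.mul_apply]
    exact Fin.sum_univ_one _
  map_zero' := rfl
  map_add' _ _ := rfl
  commutes' r := by
    rw [CStarMatrix.algebraMap_apply, if_pos rfl]
  map_star' x := rfl

theorem ob_corner (x : A) : corner 0 x = ob A x := by
  ext i j
  obtain rfl := Fin.eq_zero i
  obtain rfl := Fin.eq_zero j
  rfl

theorem bo_ob (x : A) : bo A (ob A x) = x := rfl

variable {X : Type} [MetricSpace X] [CompactSpace X] [MeasurableSpace X] [BorelSpace X]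

theorem cmp_of (hcomp : StrictComparison A) (τ : A →ₗ[ℂ] ℂ)
    (huniq : ∀ t : A → ℂ, IsTwoQuasitracialState t → t = τ) (μ : Measure X)
    [IsProbabilityMeasure μ] (χ χ' : C(X, ℂ) →⋆ₐ[ℂ] A)
    (h : ∀ f : C(X, ℝ), τ (χ (cxf f)) = ((∫ x, f x ∂μ : ℝ) : ℂ))
    (h' : ∀ f : C(X, ℝ), τ (χ' (cxf f)) = ((∫ x, f x ∂μ : ℝ) : ℂ)) : Cmp μ χ χ' := by
  intro f g hf hg hfg ε hε
  have hrank : ∀ (χ : C(X, ℂ) →⋆ₐ[ℂ] A)
      (_ : ∀ f : C(X, ℝ), τ (χ (cxf f)) = ((∫ x, f x ∂μ : ℝ) : ℂ)) (f : C(X, ℝ))
      (_ : ∀ x, 0 ≤ f x) (T : Mat A 0 → ℂ) (_ : ∀ x, T (corner 0 x) = τ x),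
      HasRank T (ob A (χ (cxf f))) (μ.real {x | 0 < f x}) := by
    intro χ h f hf T hT
    refine (tendsto_dim μ f hf).congr fun k => ?_
    have hG : Continuous (fun s : ℝ => s ^ (1 / ((k : ℝ) + 1))) :=
      Real.continuous_rpow_const (by positivity)
    have h1 := map_cfc' (ob A) _ hG (x := χ (cxf f)) (by
      change star (χ (cxf f)) = χ (cxf f)
      rw [← map_star, star_cxf])
    rw [← h1, cfc_hom_cxf χ _ hG, ← ob_corner, hT, h, Complex.ofReal_re]
    rfl
  have hpos : ∀ (χ : C(X, ℂ) →⋆ₐ[ℂ] A) (f : C(X, ℝ)) (_ : ∀ x, 0 ≤ f x),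
      IsPos (ob A (χ (cxf f))) := fun χ f hf =>
    ⟨ob A (χ (cxf (sq f))), by
      rw [← map_star, ← map_mul, ← map_star, ← map_mul, star_cxf, ← cxf_mul, sq_mul_sq f hf]⟩
  obtain ⟨v, hv⟩ := hcomp 0 (ob A (χ (cxf f))) (ob A (χ' (cxf g))) (hpos _ f hf) (hpos _ g hg)
    (by
      intro t ht T _ hTt
      rw [huniq t ht] at hTt
      exact ⟨_, _, hrank χ h f hf T hTt, hrank χ' h' g hg T hTt, hfg⟩) ε hε
  refine ⟨bo A v, ?_⟩
  have h1 : bo A v * χ' (cxf g) * star (bo A v) - χ (cxf f) =
      bo A (v * ob A (χ' (cxf g)) * star v - ob A (χ (cxf f))) := by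
    rw [map_sub, map_mul, map_mul, map_star, bo_ob, bo_ob]
  rw [h1]
  exact lt_of_le_of_lt (NonUnitalStarAlgHom.norm_apply_le (bo A) _) hv

end comparison

/-- **Theorem.** Let `A` be a unital simple C*-algebra of stable rank one with strict comparison,
which has a unique 2-quasitracial state, and suppose that this is a trace `τ`. Then for every
`n ≥ 1`, any two injective unital homomorphisms `φ, ψ : C([0,1]^n) → A` with `τ ∘ φ = τ ∘ ψ` are
approximately unitarily equivalent. -/
theorem result (A : Type) [CStarAlgebra A] [PartialOrder A] [StarOrderedRing A]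
    (hsimple : IsSimpleCStar A) (hsr : StableRankOne A) (hcomp : StrictComparison A)
    (τ : A →ₗ[ℂ] ℂ) (hτ : IsTracialState τ)
    (huniq : ∀ t : A → ℂ, IsTwoQuasitracialState t → t = τ) (n : ℕ) (hn : 1 ≤ n)
    (φ ψ : C(Fin n → unitInterval, ℂ) →⋆ₐ[ℂ] A) (hφ : Function.Injective φ)
    (hφψ : ∀ f, τ (φ f) = τ (ψ f)) : ApproxUnitarilyEquivalent φ ψ := by
  have hnt : Nontrivial A := ⟨⟨1, 0, fun h => by
    have h1 := hτ.one
    rw [h, map_zero] at h1
    exact zero_ne_one h1⟩⟩
  obtain ⟨μ, hμ, -, hint⟩ := exists_measure (X := Fin n → unitInterval)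
    (τ ∘ₗ (φ : C(Fin n → unitInterval, ℂ) →ₗ[ℂ] A))
    (by
      change τ (φ 1) = 1
      rw [map_one, hτ.one])
    (by
      intro f
      change 0 ≤ τ (φ (star f * f))
      rw [map_mul, map_star]
      exact hτ.pos _)
  have hint1 : ∀ f : C(Fin n → unitInterval, ℝ), τ (φ (cxf f)) = ((∫ x, f x ∂μ : ℝ) : ℂ) := hint
  have hint2 : ∀ f : C(Fin n → unitInterval, ℝ), τ (ψ (cxf f)) = ((∫ x, f x ∂μ : ℝ) : ℂ) :=
    fun f => by rw [← hφψ, hint1]
  have hfull : ∀ U : Set (Fin n → unitInterval), IsOpen U → U.Nonempty → 0 < μ.real U := by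
    intro U hU ⟨p, hp⟩
    obtain ⟨r, hr, hrU⟩ := Metric.isOpen_iff.1 hU p hp
    let f : C(Fin n → unitInterval, ℝ) := ⟨fun x => max 0 (r - dist x p), by fun_prop⟩
    have hf0 : ∀ x, 0 ≤ f x := fun x => le_max_left _ _
    have hfU : ∀ x, f x ≠ 0 → x ∈ U := by
      intro x hx
      refine hrU ?_
      rw [Metric.mem_ball]
      by_contra hcon
      exact hx (max_eq_left (by linarith))
    by_contra hcon
    have h0 : μ.real U = 0 := le_antisymm (not_lt.1 hcon) measureReal_nonneg
    have h1 : ∫ x, f x ∂μ = 0 := by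
      refine integral_eq_zero_of_ae ?_
      have h2 : μ U = 0 := by
        rw [measureReal_def, ENNReal.toReal_eq_zero_iff] at h0
        exact h0.resolve_right (measure_ne_top μ U)
      have h3 : ∀ᵐ x ∂μ, x ∉ U := by
        rw [ae_iff]
        simpa using h2
      filter_upwards [h3] with x hx
      by_contra h4
      exact hx (hfU x h4)
    have h2 := hint1 f
    rw [h1, Complex.ofReal_zero] at h2
    have h3 : φ (cxf (sq f)) = 0 := by
      refine faithful hτ hsimple _ ?_
      rw [← map_star, ← map_mul, star_cxf, ← cxf_mul, sq_mul_sq f hf0, h2]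
    have h4 : cxf (sq f) = 0 := hφ (by rw [h3, map_zero])
    have h5 := DFunLike.congr_fun h4 p
    rw [cxf_apply, sq_apply, ContinuousMap.zero_apply, Complex.ofReal_eq_zero] at h5
    have h6 : f p = r := by
      change max 0 (r - dist p p) = r
      rw [dist_self, sub_zero, max_eq_right hr.le]
    rw [h6, Real.sqrt_eq_zero hr.le] at h5
    exact hr.ne' h5
  have hSR : SR A := by
    intro x ε hε
    obtain ⟨y, hy, hxy⟩ := Metric.mem_closure_iff.1 (hsr x) ε hε
    exact ⟨y, hy, by rwa [← dist_eq_norm]⟩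
  have h1 := Pool.Agent.N726.UN.t_COORD n A ψ φ (fun ε hε => by
    obtain ⟨v, hv⟩ := core0 μ hn hfull hSR φ ψ (cmp_of hcomp τ huniq μ φ ψ hint1 hint2)
      (cmp_of hcomp τ huniq μ φ φ hint1 hint1) ε hε
    refine ⟨star v, fun l => ?_⟩
    have h2 := hv l
    have h3 : ψ (co l) * ((star v : unitary A) : A) - ((star v : unitary A) : A) * φ (co l) =
        -(((star v : unitary A) : A) * (φ (co l) * (v : A) - (v : A) * ψ (co l)) *
          ((star v : unitary A) : A)) := by
      have e1 : star (v : A) * (v : A) = 1 := Unitary.coe_star_mul_self _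
      have e2 : (v : A) * star (v : A) = 1 := Unitary.coe_mul_star_self _
      rw [Unitary.coe_star, mul_sub, sub_mul, neg_sub]
      congr 1
      · rw [← mul_assoc, e1, one_mul]
      · rw [mul_assoc, mul_assoc, e2, mul_one]
    rw [h3, norm_neg, CStarRing.norm_mul_coe_unitary, CStarRing.norm_coe_unitary_mul]
    exact h2)
  intro F ε hε
  exact h1 F ε hε

end Pool.Agent.Results.MP_401a3a_an.GeneralTargets
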